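import Pool.Agent.Lib.MP_990519_co.Main

open Pool.Agent.Lib.MP_990519_co

namespace Pool.Agent.Results.MP_990519_co.AtMostTwice

theorem result (n : ℕ) (hn : 3 ≤ n) (S : Finset ℂ) (hc : S.card = n)
    (hconv : ConvexIndependent ℝ (fun p : (S : Set ℂ) => (p : ℂ)))
    (hcl : (∀ x ∈ S, ∀ a ∈ S, ∀ b ∈ S, ∀ c ∈ S, a ≠ b → a ≠ c → b ≠ c →
      dist x a = dist x b → dist x a = dist x c → ∀ z ∈ S, dist x z ≤ dist x a) ∨
      n * (n + 1) ≤ (∑ x ∈ S, {y : ℂ | y ∈ S ∧ ∀ z ∈ S, dist x z ≤ dist x y}.ncard) +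
        2 * ∑ x ∈ S, ((fun y : ℂ => dist x y) '' ((S : Set ℂ) \ {x})).ncard) :
    n.choose 2 ≤ (∑ x ∈ S, ((fun y : ℂ => dist x y) '' ((S : Set ℂ) \ {x})).ncard) ∧
    ((∑ x ∈ S, ((fun y : ℂ => dist x y) '' ((S : Set ℂ) \ {x})).ncard) = n.choose 2 →
    ((Odd n → ∃ f : ℂ → ℂ, ∃ r : ℝ, 0 < r ∧
        (∀ a b : ℂ, dist (f a) (f b) = r * dist a b) ∧
        f '' (S : Set ℂ) = Set.range (fun j : Fin n =>
          Complex.exp (2 * (Real.pi : ℂ) * Complex.I * (((j : ℕ) : ℂ)) / (n : ℂ)))) ∧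
     (n = 4 → ∃ f : ℂ → ℂ, ∃ r : ℝ, 0 < r ∧
        (∀ a b : ℂ, dist (f a) (f b) = r * dist a b) ∧
        f '' (S : Set ℂ) = ({0, 1, Complex.exp ((Real.pi : ℂ) * Complex.I / 3),
            1 + Complex.exp ((Real.pi : ℂ) * Complex.I / 3)} : Set ℂ)) ∧
     (∀ k : ℕ, 3 ≤ k → n = 2 * k → ∃ t : ℝ, 0 < t ∧
        (∀ j : Fin k,
          ‖(t : ℂ) * Complex.exp ((Real.pi : ℂ) * Complex.I / (k : ℂ)) -
              Complex.exp (2 * (Real.pi : ℂ) * Complex.I * (((j : ℕ) : ℂ)) / (k : ℂ))‖ ≤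
            Metric.diam (Set.range (fun i : Fin k =>
              Complex.exp (2 * (Real.pi : ℂ) * Complex.I * (((i : ℕ) : ℂ)) / (k : ℂ))))) ∧
        (∃ j : Fin k,
          ‖(t : ℂ) * Complex.exp ((Real.pi : ℂ) * Complex.I / (k : ℂ)) -
              Complex.exp (2 * (Real.pi : ℂ) * Complex.I * (((j : ℕ) : ℂ)) / (k : ℂ))‖ =
            Metric.diam (Set.range (fun i : Fin k =>
              Complex.exp (2 * (Real.pi : ℂ) * Complex.I * (((i : ℕ) : ℂ)) / (k : ℂ))))) ∧
        ∃ f : ℂ → ℂ, ∃ r : ℝ, 0 < r ∧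
          (∀ a b : ℂ, dist (f a) (f b) = r * dist a b) ∧
          f '' (S : Set ℂ) =
            Set.range (fun j : Fin k =>
              Complex.exp (2 * (Real.pi : ℂ) * Complex.I * (((j : ℕ) : ℂ)) / (k : ℂ))) ∪
            Set.range (fun j : Fin k => (t : ℂ) *
              Complex.exp ((2 * (((j : ℕ) : ℂ)) + 1) * (Real.pi : ℂ) * Complex.I /
                (k : ℂ)))))) := by
  obtain ⟨h1, h2⟩ := structure_thm n hn S hc hconv hcl
  refine ⟨h1, fun hT => ?_⟩
  obtain ⟨p, τ, hS, cov, per, inj, ho, hτ⟩ := h2 hT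
  have s1 : ∀ l, dist (p l) (p (l + 1)) = dist (p (l + 1)) (p (l + 2)) := by
    intro l
    have := (hτ (l + 1)).2.2.2.1 1 le_rfl (hτ (l + 1)).1
    rw [add_sub_cancel_right, add_assoc, one_add_one_eq_two] at this
    rw [this, dist_comm]
  have s2 : ∀ l, dist (p l) (p (l + 2)) = dist (p (l + 2)) (p (l + 4)) := by
    intro l
    by_cases h : 2 ≤ τ (l + 2)
    · have := (hτ (l + 2)).2.2.2.1 2 (by omega) h
      rw [add_sub_cancel_right, add_assoc, two_add_two_eq_four] at this
      rw [this, dist_comm]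
    · have a1 := hτ (l + 2)
      have a2 := hτ (l + 2 + 1)
      have : n = 3 ∨ n = 4 := by omega
      rcases this with rfl | rfl
      · have e1 : p (l + 4) = p (l + 1) := by rw [← per (l + 1)]; congr 1; push_cast; ring
        have e2 : p (l + 1 + 2) = p l := by rw [← per l]; congr 1; push_cast; ring
        have e3 := s1 (l + 1)
        rw [e2, add_assoc, one_add_one_eq_two] at e3
        rw [e1, dist_comm (p l), ← e3, dist_comm]
      · have e1 : p (l + 4) = p l := per l
        rw [e1, dist_comm]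
  obtain ⟨c, ω, hω, hc0, hrot⟩ := rot n hn p per inj ho s1 s2
  refine ⟨fun hodd => ?_, ?_, ?_⟩
  · have v0 : p 0 - c ≠ 0 := sub_ne_zero.2 (hc0 0)
    obtain ⟨r0, hs⟩ := sim c (p 0 - c) v0
    refine ⟨fun z => (z - c) / (p 0 - c), _, r0, hs, ?_⟩
    rw [← odd_case n hodd (fun l => (p l - c) / (p 0 - c)) ω (fun i => by simp only [per])
      (fun i j a b e => inj i j a b (by
        have := (div_left_inj' v0).1 e; linear_combination this))
      (div_self v0) (fun l => by simp only [hrot]; ring)]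
    ext z
    constructor
    · rintro ⟨x, hx, rfl⟩
      obtain ⟨i, a1, a2, rfl⟩ := cov x hx 0
      refine ⟨⟨i.toNat, by omega⟩, ?_⟩
      simp only [Int.toNat_of_nonneg a1]
    · rintro ⟨j, rfl⟩
      exact ⟨_, hS _, rfl⟩
  · rintro rfl
    obtain ⟨l, hl⟩ : ∃ l, τ l = 1 := by
      have a1 := hτ 0; have a2 := hτ (0 + 1); have a3 := hτ (0 + 1 + 1)
      by_cases h : τ 0 = 1
      · exact ⟨0, h⟩
      · exact ⟨0 + 1, by omega⟩
    have a1 := hτ l
    have e12 : dist (p l) (p (l + 2)) = dist (p l) (p (l + 1)) := le_antisymm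
      (a1.2.2.2.2 _ (by omega) (by omega) _ (by omega) (by omega))
      (a1.2.2.2.2 _ (by omega) (by omega) _ (by omega) (by omega))
    have v0 : p l - p (l - 1) ≠ 0 := sub_ne_zero.2 (inj (l - 1) l (by omega) (by omega)).symm
    obtain ⟨r0, hs⟩ := sim (p (l - 1)) (p l - p (l - 1)) v0
    set v := p l - p (l - 1) with hv
    have b0 := s1 (l - 1)
    rw [sub_add_cancel, show l - 1 + 2 = l + 1 by ring] at b0
    have b1 := s1 l
    have b2 := s1 (l + 1)
    have e3 : p (l + 1 + 2) = p (l - 1) := by rw [← per (l - 1)]; congr 1; push_cast; ring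
    rw [e3, add_assoc, one_add_one_eq_two] at b2
    have dv : dist (p (l - 1)) (p l) = ‖v‖ := by rw [dist_comm, Complex.dist_eq]
    have n0 : ‖v‖ ≠ 0 := norm_ne_zero_iff.2 v0
    have f0 : (p (l - 1) - p (l - 1)) / v = 0 := by simp
    have f1 : (p l - p (l - 1)) / v = 1 := div_self v0
    have key := rhombus (g1 := (p (l + 1) - p (l - 1)) / v) (g2 := (p (l + 2) - p (l - 1)) / v)
      (by have := hs (p (l + 2)) (p (l - 1))
          rw [f0, dist_zero_right] at this
          rw [this, ← b2, ← b1, ← b0, dv]; field_simp)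
      (by have := hs (p (l + 2)) (p l)
          rw [f1, Complex.dist_eq] at this
          rw [this, dist_comm, e12, ← b0, dv]; field_simp)
      (by have := ho (l - 1) l (l + 2) (by omega) (by omega) (by omega)
          rw [Complex.div_im, ← sub_div]
          apply div_pos _ (Complex.normSq_pos.2 v0)
          unfold ori at this
          simp only [hv, Complex.sub_re, Complex.sub_im]; linarith)
      (by have := hs (p (l + 1)) (p l)
          rw [f1, Complex.dist_eq] at this
          rw [this, dist_comm, ← b0, dv]; field_simp)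
      (by have := hs (p (l + 1)) (p (l + 2))
          rw [Complex.dist_eq] at this
          rw [this, ← b1, ← b0, dv]; field_simp)
      (div_ne_zero (sub_ne_zero.2 (inj (l - 1) (l + 1) (by omega) (by omega)).symm) v0)
    refine ⟨fun z => (z - p (l - 1)) / v, _, r0, hs, ?_⟩
    ext z
    simp only [Set.mem_insert_iff, Set.mem_singleton_iff]
    constructor
    · rintro ⟨x, hx, rfl⟩
      obtain ⟨i, c1, c2, rfl⟩ := cov x hx (l - 1)
      have : i = l - 1 ∨ i = l ∨ i = l + 2 ∨ i = l + 1 := by omega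
      rcases this with rfl | rfl | rfl | rfl
      · exact Or.inl f0
      · exact Or.inr (Or.inl f1)
      · exact Or.inr (Or.inr (Or.inl key.1))
      · exact Or.inr (Or.inr (Or.inr key.2))
    · rintro (rfl | rfl | rfl | rfl)
      · exact ⟨_, hS _, f0⟩
      · exact ⟨_, hS _, f1⟩
      · exact ⟨_, hS _, key.1⟩
      · exact ⟨_, hS _, key.2⟩
  · rintro k hk rfl
    obtain ⟨l, hl⟩ : ∃ l, τ l = k - 1 := by
      have a1 := hτ 0; have a2 := hτ (0 + 1); have a3 := hτ (0 + 1 + 1)
      by_cases h : τ 0 = k - 1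
      · exact ⟨0, h⟩
      · exact ⟨0 + 1, by omega⟩
    have a1 := hτ l
    have v0 : p (l + 0) - c ≠ 0 := sub_ne_zero.2 (hc0 _)
    obtain ⟨r0, hs⟩ := sim c (p (l + 0) - c) v0
    obtain ⟨t, t0, b1, b2, b3⟩ := even_case k hk (fun s => (p (l + s) - c) / (p (l + 0) - c)) ω hω
      (fun i => by simp only [← add_assoc, per])
      (fun s => by
        obtain ⟨i, c1, c2, c3⟩ := cov _ (hS (l + s)) l
        exact ⟨i - l, by omega, by omega, by simp only [add_sub_cancel, c3]⟩)
      (fun i j a b e => inj (l + i) (l + j) (by omega) (by omega) (by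
        have := (div_left_inj' v0).1 e; linear_combination this))
      (div_self v0) (fun s => by simp only [← add_assoc, hrot]; ring)
      (by rw [hs, hs, add_zero, s1 l])
      (fun j c1 c2 z c3 c4 => by
        rw [hs, hs]
        refine mul_le_mul_of_nonneg_left ?_ r0.le
        rw [add_zero]
        exact a1.2.2.2.2 _ (by omega) (by omega) _ (by omega) (by omega))
    refine ⟨t, t0, b1, b2, fun z => (z - c) / (p (l + 0) - c), _, r0, hs, ?_⟩
    rw [← b3]
    ext z
    constructor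
    · rintro ⟨x, hx, rfl⟩
      obtain ⟨i, _, _, rfl⟩ := cov x hx 0
      exact ⟨i - l, by simp only [add_sub_cancel]⟩
    · rintro ⟨j, rfl⟩
      exact ⟨_, hS _, rfl⟩

end Pool.Agent.Results.MP_990519_co.AtMostTwice
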