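import Pool.Agent.Results.MP_990519_co.AtMostTwice
import Pool.Agent.Lib.MP_990519_co.Big.L6
import Pool.Agent.Lib.MP_990519_co.D.Main
import Pool.Agent.Lib.MP_990519_co.EF.Main

open Pool.Agent.Lib.MP_990519_co

namespace Pool.Agent.Results.MP_990519_co.LargeN

theorem result : ∃ n0 : ℕ, ∀ n : ℕ, n0 ≤ n → ∀ S : Finset ℂ, S.card = n →
    ConvexIndependent ℝ (fun p : (S : Set ℂ) => (p : ℂ)) →
    n.choose 2 ≤ (∑ x ∈ S, ((fun y : ℂ => dist x y) '' ((S : Set ℂ) \ {x})).ncard) ∧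
    ((∑ x ∈ S, ((fun y : ℂ => dist x y) '' ((S : Set ℂ) \ {x})).ncard) = n.choose 2 →
    ((Odd n → ∃ f : ℂ → ℂ, ∃ r : ℝ, 0 < r ∧
        (∀ a b : ℂ, dist (f a) (f b) = r * dist a b) ∧
        f '' (S : Set ℂ) = Set.range (fun j : Fin n =>
          Complex.exp (2 * (Real.pi : ℂ) * Complex.I * (((j : ℕ) : ℂ)) / (n : ℂ)))) ∧
     (n = 4 → ∃ f : ℂ → ℂ, ∃ r : ℝ, 0 < r ∧
        (∀ a b : ℂ, dist (f a) (f b) = r * dist a b) ∧
        f '' (S : Set ℂ) = ({0, 1, Complex.exp ((Real.pi : ℂ) * Complex.I / 3),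
            1 + Complex.exp ((Real.pi : ℂ) * Complex.I / 3)} : Set ℂ)) ∧
     (∀ k : ℕ, 3 ≤ k → n = 2 * k → ∃ t : ℝ, 0 < t ∧
        (∀ j : Fin k,
          ‖(t : ℂ) * Complex.exp ((Real.pi : ℂ) * Complex.I / (k : ℂ)) -
              Complex.exp (2 * (Real.pi : ℂ) * Complex.I * (((j : ℕ) : ℂ)) / (k : ℂ))‖ ≤
            Metric.diam (Set.range (fun i : Fin k =>
              Complex.exp (2 * (Real.pi : ℂ) * Complex.I * (((i : ℕ) : ℂ)) / (k : ℂ))))) ∧
        (∃ j : Fin k,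
          ‖(t : ℂ) * Complex.exp ((Real.pi : ℂ) * Complex.I / (k : ℂ)) -
              Complex.exp (2 * (Real.pi : ℂ) * Complex.I * (((j : ℕ) : ℂ)) / (k : ℂ))‖ =
            Metric.diam (Set.range (fun i : Fin k =>
              Complex.exp (2 * (Real.pi : ℂ) * Complex.I * (((i : ℕ) : ℂ)) / (k : ℂ))))) ∧
        ∃ f : ℂ → ℂ, ∃ r : ℝ, 0 < r ∧
          (∀ a b : ℂ, dist (f a) (f b) = r * dist a b) ∧
          f '' (S : Set ℂ) =
            Set.range (fun j : Fin k =>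
              Complex.exp (2 * (Real.pi : ℂ) * Complex.I * (((j : ℕ) : ℂ)) / (k : ℂ))) ∪
            Set.range (fun j : Fin k => (t : ℂ) *
              Complex.exp ((2 * (((j : ℕ) : ℂ)) + 1) * (Real.pi : ℂ) * Complex.I /
                (k : ℂ)))))) := by
  obtain ⟨k, hk⟩ := D.thmD
  obtain ⟨δ, hδ, n1, h1⟩ := EF.endgame
  obtain ⟨n2, h2⟩ := Big.stab hk δ hδ
  refine ⟨max 3 (max n1 n2), fun n hn S hc hconv => ?_⟩
  have hn3 : 3 ≤ n := le_trans (le_max_left _ _) hn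
  have hn1 : n1 ≤ S.card := by
    rw [hc]; exact le_trans (le_trans (le_max_left _ _) (le_max_right _ _)) hn
  have hn2 : n2 ≤ S.card := by
    rw [hc]; exact le_trans (le_trans (le_max_right _ _) (le_max_right _ _)) hn
  by_cases hT : (∑ x ∈ S, ((fun y : ℂ => dist x y) '' ((S : Set ℂ) \ {x})).ncard) ≤ n.choose 2
  · obtain ⟨cen, hcen⟩ := h2 S hconv hn2 (by rw [Big.Tsum_eq, hc]; exact hT)
    have hI := h1 S hn1 hconv cen (by
      refine le_trans (le_of_eq ?_) hcen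
      unfold Big.cnt2
      congr 2
      ext q
      simp only [Finset.mem_filter]
      rfl) (by rw [hc]; exact hT)
    exact AtMostTwice.result n hn3 S hc hconv (Or.inl hI)
  · exact ⟨le_of_lt (not_le.1 hT), fun h => absurd h.le hT⟩

end Pool.Agent.Results.MP_990519_co.LargeN
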