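import Pool.Agent.Lib.MP_990519_co.Five

open Pool.Agent.Lib.MP_990519_co Finset

namespace Pool.Agent.Results.MP_990519_co.TwoFifths

theorem result (n : ℕ) (hn : 3 ≤ n) (S : Finset ℂ) (hc : S.card = n)
    (hconv : ConvexIndependent ℝ (fun p : (S : Set ℂ) => (p : ℂ))) :
    2 * n ^ 2 ≤ 5 * (∑ x ∈ S, ((fun y : ℂ => dist x y) '' ((S : Set ℂ) \ {x})).ncard) + n := by
  classical
  obtain ⟨p, hS, cov, per, inj, ho⟩ := exists_cyclic (by omega) hc hconv
  have inj' : ∀ l i j : ℤ, l ≤ i → i < l + n → l ≤ j → j < l + n → p i = p j → i = j := by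
    intro l i j h1 h2 h3 h4 e
    rcases lt_trichotomy i j with h | h | h
    · exact absurd e (inj i j h (by omega))
    · exact h
    · exact absurd e.symm (inj j i h (by omega))
  have one : ∀ i : ℤ, ((Ioo i (i + n)).image (fun j => dist (p i) (p j))).card =
      ((fun y : ℂ => dist (p i) y) '' ((S : Set ℂ) \ {p i})).ncard := by
    intro i
    rw [← Set.ncard_coe_finset]
    congr 1
    ext v
    simp only [coe_image, coe_Ioo, Set.mem_image, Set.mem_Ioo, Set.mem_sdiff, mem_coe,
      Set.mem_singleton_iff]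
    constructor
    · rintro ⟨j, ⟨h1, h2⟩, rfl⟩
      exact ⟨p j, ⟨hS j, (inj i j h1 h2).symm⟩, rfl⟩
    · rintro ⟨y, ⟨h1, h2⟩, rfl⟩
      obtain ⟨j, a1, a2, rfl⟩ := cov y h1 i
      exact ⟨j, ⟨lt_of_le_of_ne a1 (fun e => h2 (by rw [e])), a2⟩, rfl⟩
  have hsum : ∀ l : ℤ, ∑ i ∈ range n,
      ((Ioo (l + i) (l + i + n)).image (fun j => dist (p (l + i)) (p j))).card =
      ∑ x ∈ S, ((fun y : ℂ => dist x y) '' ((S : Set ℂ) \ {x})).ncard := by
    intro l
    refine sum_bij (fun i _ => p (l + i)) (fun i _ => hS _) ?_ ?_ (fun i _ => one _)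
    · intro a ha b hb e
      rw [mem_range] at ha hb
      have := inj' l _ _ (by omega) (by omega) (by omega) (by omega) e
      omega
    · intro x hx
      obtain ⟨j, a1, a2, rfl⟩ := cov x hx l
      exact ⟨(j - l).toNat, mem_range.2 (by omega), by congr 1; omega⟩
  have key := five n hn (fun i j => dist (p i) (p j)) _ (fun i j => by simp only [per])
    (kalm2 ho) hsum
  rw [pow_two, ← mul_assoc]
  exact key

end Pool.Agent.Results.MP_990519_co.TwoFifths
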